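import Pool.Agent.V5helper12.BB.ALG

/-!
# Project BB (helper75), job GEN: general exactness
-/

set_option autoImplicit false
set_option linter.unusedSectionVars false

namespace Pool.Agent.V5helper12.BB

open Finset Pool.Agent.W907.SG Pool.Agent.V5helper74.LR
open Pool.Agent.R703.MO (HomZero)

section

variable {V : Type} [Fintype V] [LinearOrder V] {G : SimpleGraph V} {M : Type} [AddCommGroup M] [Module ℝ M]

/-- the chains of the quotient family lift -/
theorem lift_quo {C : Finset V} {N : V → Submodule ℝ M} {u : V} (hu : u ∈ C) (h : Dis G C N) {j : ℕ}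
    {k : Finset V → M ⧸ N u} (hk : Ch G (Lk G (C.erase u) u) (quo N u) j k) :
    ∃ f, Ch G (Lk G (C.erase u) u) N j f ∧ ∀ T, (N u).mkQ (f T) = k T := by
  have hlift : ∀ T, ∃ y : M, (N u).mkQ y = k T ∧ (k T = 0 → y = 0) ∧ ∀ v ∈ T, y ∈ N v := by
    intro T
    by_cases h0 : k T = 0
    · exact ⟨0, by rw [h0, map_zero], fun _ => rfl, fun v _ => zero_mem _⟩
    · obtain ⟨h2, h3, -⟩ := hk.supp T h0
      obtain ⟨m, hm⟩ := (N u).mkQ_surjective (k T)
      have hT : ∀ v ∈ T, G.Adj u v := fun v hv => (mem_Lk.1 (h3 hv)).2
      have h6 : cup N {u} = N u := by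
        have := cup_insert N u ∅
        rwa [cup_empty, sup_bot_eq] at this
      have h4 := h T {u} (by
        rw [disjoint_singleton_right]
        exact fun h5 => (G.ne_of_adj (hT u h5)) rfl) (by
        rw [union_comm, ← insert_eq, coe_insert]
        intro a ha b hb hab
        rcases ha with rfl | ha
        · rcases hb with rfl | hb
          · exact absurd rfl hab
          · exact hT b hb
        · rcases hb with rfl | hb
          · exact (hT a ha).symm
          · exact h2 ha hb hab) (by
        intro a ha
        rcases mem_union.1 ha with ha | ha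
        · exact mem_of_mem_erase (mem_Lk.1 (h3 ha)).1
        · rw [mem_singleton.1 ha]; exact hu) m (by
        intro v hv
        obtain ⟨y, hy, hy'⟩ := hk.mem T v hv
        rw [h6]
        have h7 : m - y ∈ N u := by
          rw [← Submodule.Quotient.eq]
          exact hm.trans hy'.symm
        have h8 : m = y + (m - y) := by abel
        rw [h8]
        exact Submodule.add_mem _ (Submodule.mem_sup_left hy) (Submodule.mem_sup_right h7))
      rw [h6] at h4
      obtain ⟨a, ha, b, hb, hab⟩ := Submodule.mem_sup.1 h4
      refine ⟨a, ?_, fun h9 => absurd h9 h0, fun v hv => mem_cap.1 ha v hv⟩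
      rw [← hm, ← hab, map_add]
      have : (N u).mkQ b = 0 := (Submodule.Quotient.mk_eq_zero _).2 hb
      rw [this, add_zero]
  choose y hy1 hy2 hy3 using hlift
  exact ⟨y, ⟨fun T hT => hk.supp T fun e => hT (hy2 T e), fun T v hv => hy3 T v hv⟩, hy1⟩

/-- one vertex -/
theorem gen_step {C : Finset V} {N : V → Submodule ℝ M} {u : V} (hu : u ∈ C) (h : Dis G C N) {i : ℕ}
    (h1 : Ex G C (Function.update N u ⊤) i) (h2 : Ex G (Lk G (C.erase u) u) (quo N u) i) : Ex G C N i := by
  intro c hc hc0
  have hle : ∀ v, N v ≤ Function.update N u ⊤ v := by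
    intro v
    by_cases h : v = u
    · rw [h, Function.update_self]; exact le_top
    · rw [Function.update_of_ne h]
  have hsub : Lk G (C.erase u) u ⊆ Lk G C u := fun v hv =>
    mem_Lk.2 ⟨mem_of_mem_erase (mem_Lk.1 hv).1, (mem_Lk.1 hv).2⟩
  obtain ⟨e, he, he0⟩ := h1 c (hc.mono subset_rfl fun v _ => hle v) hc0
  have hlk := he.lk u
  -- the link part modulo `N u`
  have hQ : Ch G (Lk G (C.erase u) u) (quo N u) i (fun T => (N u).mkQ (lk u e T)) := by
    refine ⟨fun T hT => ?_, fun T v hv => ?_⟩
    · obtain ⟨a1, a2, a3⟩ := hlk.supp T fun h0 => hT (by show (N u).mkQ (lk u e T) = 0; rw [h0, map_zero])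
      refine ⟨a1, fun v hv => ?_, a3⟩
      obtain ⟨b1, b2⟩ := mem_Lk.1 (a2 hv)
      exact mem_Lk.2 ⟨mem_erase.2 ⟨fun e => (G.ne_of_adj b2) e.symm, b1⟩, b2⟩
    · by_cases hvu : v = u
      · subst hvu
        have h3 : lk v e T = 0 := if_pos hv
        show (N v).mkQ (lk v e T) ∈ _
        rw [h3, map_zero]
        exact zero_mem _
      · have h3 := (hlk.mem T v hv).1
        rw [Function.update_of_ne hvu] at h3
        exact ⟨_, h3, rfl⟩
  have hQ0 : bd ℝ (fun T => (N u).mkQ (lk u e T)) = 0 := by
    funext T
    rw [mkQ_bd, bd_lk u he0]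
    rw [Pi.neg_apply, map_neg, Pi.zero_apply, neg_eq_zero]
    rw [Submodule.mkQ_apply]
    refine (Submodule.Quotient.mk_eq_zero _).2 ?_
    unfold lk
    split_ifs
    · exact zero_mem _
    · exact zsmul_mem (hc.mem _ u (mem_insert_self u T)) _
  obtain ⟨f', hf', hf0⟩ := h2 _ hQ hQ0
  obtain ⟨f, hf, hff⟩ := lift_quo hu h hf'
  have hfm : ∀ T, bd ℝ f T - lk u e T ∈ N u := fun T => by
    have h6 : (N u).mkQ (bd ℝ f T - lk u e T) = 0 := by
      rw [map_sub, ← mkQ_bd]
      have h7 : (fun T => (N u).mkQ (f T)) = f' := funext hff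
      rw [h7, hf0, sub_self]
    rw [Submodule.mkQ_apply] at h6
    exact (Submodule.Quotient.mk_eq_zero _).1 h6
  have hoff : Off u f := hf.offOf fun h => (notMem_erase u C) (mem_Lk.1 h).1
  have htop : Ch G C (Function.update N u ⊤) (i + 1) (bd ℝ (cone u f)) :=
    (Ch.cone hu (hf.mono hsub fun v _ => hle v) fun _ => by
      rw [Function.update_self]; exact Submodule.mem_top).bd
  have hsum := he.add htop
  refine ⟨e + bd ℝ (cone u f), ⟨hsum.supp, fun T w hw => ?_⟩, ?_⟩
  · by_cases hwu : w = u
    · subst hwu
      rw [Pi.add_apply, bd_cone hoff, Pi.sub_apply, hoff T hw, zero_sub]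
      have h1 : cone w (bd ℝ f) T = sg w (T.erase w) • bd ℝ f (T.erase w) := if_pos hw
      have h2 : e T = sg w (T.erase w) • lk w e (T.erase w) := by
        unfold lk
        rw [if_neg (notMem_erase w T), smul_smul, sg_mul_self, one_smul, insert_erase hw]
      rw [h1, h2]
      have h3 := zsmul_mem (hfm (T.erase w)) (sg w (T.erase w))
      rw [smul_sub] at h3
      have h4 := (N w).neg_mem h3
      have h5 : sg w (T.erase w) • lk w e (T.erase w) + -(sg w (T.erase w) • bd ℝ f (T.erase w)) =
          -(sg w (T.erase w) • bd ℝ f (T.erase w) - sg w (T.erase w) • lk w e (T.erase w)) := by abel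
      rw [h5]
      exact h4
    · have h3 := hsum.mem T w hw
      rwa [Function.update_of_ne hwu] at h3
  · rw [map_add, he0, bd_bd, add_zero]

end

/-- the induction -/
theorem gen_all (V : Type) [Fintype V] [LinearOrder V] (G : SimpleGraph V) (i : ℕ) :
    ∀ (k : ℕ) (M : Type) [AddCommGroup M] [Module ℝ M] (C : Finset V) (N : V → Submodule ℝ M),
      (∃ D : Finset V, D.card = k ∧ ∀ v, v ∈ D ↔ v ∈ C ∧ N v ≠ ⊤) → Dis G C N →
      (∀ S : Finset V, G.IsClique (S : Set V) → S ⊆ C → cup N S ≠ ⊤ →
        HomZero G {w | w ∈ C ∧ ∀ v ∈ S, G.Adj v w} i) → Ex G C N i := by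
  classical
  intro k
  induction k using Nat.strong_induction_on with
  | _ k ih =>
    intro M _ _ C N hk hD hH
    obtain ⟨D, hDk, hDm⟩ := hk
    rcases D.eq_empty_or_nonempty with hD0 | ⟨u, hu⟩
    · have h1 : ∀ v ∈ C, N v = ⊤ := by
        intro v hv
        by_contra h
        have := (hDm v).2 ⟨hv, h⟩
        rw [hD0] at this
        exact absurd this (notMem_empty v)
      intro c hc hc0
      by_cases hM : (⊥ : Submodule ℝ M) = ⊤
      · have hz : ∀ m : M, m = 0 := fun m => by
          have : m ∈ (⊤ : Submodule ℝ M) := Submodule.mem_top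
          rw [← hM] at this
          exact (Submodule.mem_bot ℝ).1 this
        refine ⟨0, ⟨fun T hT => absurd rfl hT, fun T v _ => zero_mem _⟩, ?_⟩
        funext T
        rw [hz (c T)]
        exact hz _
      · have h2 := hH ∅ (by rw [coe_empty]; exact Set.pairwise_empty _) (empty_subset _) (by rwa [cup_empty])
        have h3 : {w | w ∈ C ∧ ∀ v ∈ (∅ : Finset V), G.Adj v w} = (C : Set V) := by
          ext w
          simp
        rw [h3] at h2
        obtain ⟨e, he, he0⟩ := base h2 M c (hc.mono subset_rfl fun v _ => le_top) hc0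
        exact ⟨e, he.mono subset_rfl fun v hv => by rw [h1 v hv], he0⟩
    · obtain ⟨huC, huN⟩ := (hDm u).1 hu
      refine gen_step huC hD ?_ ?_
      · refine ih (D.erase u).card (by rw [← hDk]; exact card_erase_lt_of_mem hu) M C _ ⟨D.erase u, rfl, ?_⟩
          hD.update ?_
        · intro v
          rw [mem_erase, hDm]
          by_cases e : v = u
          · subst e
            simp
          · rw [Function.update_of_ne e]
            simp [e]
        · intro S hS hSC hcup
          have huS : u ∉ S := by
            intro h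
            apply hcup
            rw [eq_top_iff]
            have := le_cup (N := Function.update N u ⊤) h
            rwa [Function.update_self] at this
          refine hH S hS hSC ?_
          have h4 : cup (Function.update N u ⊤) S = cup N S := by
            unfold cup
            refine iSup_congr fun v => iSup_congr fun hv => ?_
            rw [Function.update_of_ne]
            rintro rfl
            exact huS hv
          rwa [h4] at hcup
      · have hlt : ((D.erase u).filter fun v => v ∈ Lk G (C.erase u) u ∧ quo N u v ≠ ⊤).card < k := by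
          rw [← hDk]
          exact lt_of_le_of_lt (card_filter_le _ _) (card_erase_lt_of_mem hu)
        refine ih _ hlt (M ⧸ N u) (Lk G (C.erase u) u) (quo N u) ⟨_, rfl, ?_⟩ (dis_quo huC hD) ?_
        · intro v
          rw [mem_filter, mem_erase, hDm]
          refine ⟨fun h => h.2, fun h => ⟨?_, h⟩⟩
          obtain ⟨b1, b2⟩ := mem_Lk.1 h.1
          refine ⟨(mem_erase.1 b1).1, (mem_erase.1 b1).2, fun h3 => h.2 ?_⟩
          unfold quo
          rw [h3, Submodule.map_top, Submodule.range_mkQ]
        · intro S hS hSC hcup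
          have hadj : ∀ w ∈ S, G.Adj u w := fun w hw => (mem_Lk.1 (hSC hw)).2
          have h5 := hH (insert u S) (by
            rw [coe_insert]
            intro a ha b hb hab
            rcases ha with rfl | ha
            · rcases hb with rfl | hb
              · exact absurd rfl hab
              · exact hadj b hb
            · rcases hb with rfl | hb
              · exact (hadj a ha).symm
              · exact hS ha hb hab) (by
            intro x hx
            rcases mem_insert.1 hx with rfl | hx
            · exact huC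
            · exact mem_of_mem_erase (mem_Lk.1 (hSC hx)).1) (by
            intro h6
            apply hcup
            rw [cup_quo, eq_top_iff]
            intro m _
            obtain ⟨m, rfl⟩ := (N u).mkQ_surjective m
            have h7 : m ∈ N u ⊔ cup N S := by
              rw [← cup_insert, h6]
              exact Submodule.mem_top
            obtain ⟨x, hx, y, hy, rfl⟩ := Submodule.mem_sup.1 h7
            refine ⟨y, hy, ?_⟩
            rw [map_add]
            have h8 : (N u).mkQ x = 0 := by
              rw [Submodule.mkQ_apply]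
              exact (Submodule.Quotient.mk_eq_zero _).2 hx
            rw [h8, zero_add])
          have h9 : {w | w ∈ Lk G (C.erase u) u ∧ ∀ v ∈ S, G.Adj v w} =
              {w | w ∈ C ∧ ∀ v ∈ insert u S, G.Adj v w} := by
            ext w
            simp only [Set.mem_setOf_eq, mem_Lk, mem_erase, mem_insert, forall_eq_or_imp]
            constructor
            · rintro ⟨⟨⟨_, a1⟩, a2⟩, a3⟩
              exact ⟨a1, a2, a3⟩
            · rintro ⟨a1, a2, a3⟩
              exact ⟨⟨⟨fun e => G.ne_of_adj a2 e.symm, a1⟩, a2⟩, a3⟩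
          rw [h9]
          exact h5

/-- **GEN** -/
theorem t_GEN : ∀ (V : Type) [Fintype V] [LinearOrder V] (G : SimpleGraph V) (M : Type) [AddCommGroup M]
    [Module ℝ M] (N : V → Submodule ℝ M) (i : ℕ), Dis G univ N →
    (∀ S : Finset V, G.IsClique (S : Set V) → cup N S ≠ ⊤ → HomZero G {w | ∀ v ∈ S, G.Adj v w} i) →
    Ex G univ N i := by
  classical
  intro V _ _ G M _ _ N i hD hH
  refine gen_all V G i (univ.filter fun v => N v ≠ ⊤).card M univ N ⟨_, rfl, fun v => ?_⟩ hD fun S hS _ hcup => ?_
  · rw [mem_filter]
  · have h := hH S hS hcup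
    have h2 : {w | w ∈ (univ : Finset V) ∧ ∀ v ∈ S, G.Adj v w} = {w | ∀ v ∈ S, G.Adj v w} := by
      ext w
      simp
    rw [h2]
    exact h

end Pool.Agent.V5helper12.BB
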