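import Pool.Agent.V5helper74.LR.Base

/-!
# Project BB (helper75), job ALG: exactness with few reduced homology
-/

set_option autoImplicit false
set_option linter.unusedSectionVars false

namespace Pool.Agent.V5helper12.BB

open Finset Pool.Agent.W907.SG Pool.Agent.V5helper74.LR
open Pool.Agent.R703.MO (HomZero)

variable {V : Type} [Fintype V] [LinearOrder V] {G : SimpleGraph V} {M : Type} [AddCommGroup M] [Module ℝ M]

theorem cap_sup {N : V → Submodule ℝ M} (hD : Dis G univ N) (hN : ∀ v w, G.Adj v w → N v ⊔ N w = ⊤) {v : V}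
    {T : Finset V} (hv : v ∉ T) (hadj : ∀ w ∈ T, G.Adj v w) (hT : G.IsClique (T : Set V)) :
    cap N T ⊔ N v = ⊤ := by
  have hc : cup N {v} = N v := by simp [cup]
  rw [eq_top_iff]
  intro m _
  have h1 := hD T {v} (disjoint_singleton_right.2 hv) (by
    rw [union_comm, ← insert_eq, coe_insert]
    intro a ha b hb hab
    rcases ha with rfl | ha
    · rcases hb with rfl | hb
      · exact absurd rfl hab
      · exact hadj b hb
    · rcases hb with rfl | hb
      · exact (hadj a ha).symm
      · exact hT ha hb hab) (subset_univ _) m (fun w hw => by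
        rw [hc, hN w v (hadj w hw).symm]
        exact Submodule.mem_top)
  rwa [hc] at h1

/-- the boundary of the link part -/
theorem bd_lk {e c : Finset V → M} (v : V) (h : bd ℝ e = c) : bd ℝ (lk v e) = - lk v c := by
  have h1 : bd ℝ e = (bd ℝ (off v e) + lk v e) - cone v (bd ℝ (lk v e)) := by
    conv_lhs => rw [decomp v e]
    rw [map_add, bd_cone (off_lk v e)]
    abel
  have h2 : (bd ℝ (off v e) + lk v e - off v c) + cone v (-lk v c - bd ℝ (lk v e)) = 0 := by
    rw [cone_sub]
    have h3 : cone v (-lk v c) = - cone v (lk v c) := by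
      funext T
      rw [Pi.neg_apply]
      unfold cone
      split_ifs
      · rw [Pi.neg_apply, smul_neg]
      · rw [neg_zero]
    have h4 : bd ℝ (off v e) + lk v e - cone v (bd ℝ (lk v e)) = off v c + cone v (lk v c) := by
      rw [← h1, h]
      exact decomp v c
    rw [h3]
    have h5 := sub_eq_zero.2 h4
    rw [← h5]
    abel
  have h5 := (split_zero (u := v) (fun T hT => by
    rw [Pi.sub_apply, Pi.add_apply, off_bd (off_off v e) T hT, off_lk v e T hT, off_off v c T hT]
    simp) (fun T hT => by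
    rw [Pi.sub_apply, Pi.neg_apply, off_lk v c T hT, off_bd (off_lk v e) T hT]
    simp) h2).2
  exact (sub_eq_zero.1 h5).symm

theorem mkQ_bd (P : Submodule ℝ M) (f : Finset V → M) (T : Finset V) :
    bd ℝ (fun T => P.mkQ (f T)) T = P.mkQ (bd ℝ f T) := by
  rw [bd_apply, bd_apply, map_sum]
  exact sum_congr rfl fun v _ => (map_zsmul _ _ _).symm

/-- the lift of the filling in the link of `v` -/
theorem link_fill {N : V → Submodule ℝ M} {i : ℕ} (hD : Dis G univ N) (hN : ∀ v w, G.Adj v w → N v ⊔ N w = ⊤)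
    {c e : Finset V → M} (hc : ∀ T, ∀ v ∈ T, c T ∈ N v)
    (he : Ch G univ (fun _ => (⊤ : Submodule ℝ M)) (i + 1) e) (he0 : bd ℝ e = c) (v : V)
    (hK : N v = ⊤ ∨ HomZero G {w | G.Adj v w} i) :
    ∃ f, Ch G (Lk G univ v) N (i + 1) f ∧ ∀ T, bd ℝ f T - lk v e T ∈ N v := by
  classical
  rcases hK with hK | hK
  · exact ⟨0, ⟨fun T hT => absurd rfl hT, fun T w _ => zero_mem _⟩, fun T => by rw [hK]; exact Submodule.mem_top⟩
  have hcoe : ((Lk G univ v : Finset V) : Set V) = {w | G.Adj v w} := by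
    ext w
    simp [mem_Lk]
  have hlk := he.lk v
  have hQ : Ch G (Lk G univ v) (fun _ => (⊤ : Submodule ℝ (M ⧸ N v))) i (fun T => (N v).mkQ (lk v e T)) :=
    ⟨fun T hT => hlk.supp T fun h0 => hT (by show (N v).mkQ (lk v e T) = 0; rw [h0, map_zero]),
      fun T w _ => Submodule.mem_top⟩
  have hQ0 : bd ℝ (fun T => (N v).mkQ (lk v e T)) = 0 := by
    funext T
    rw [mkQ_bd, bd_lk v he0]
    rw [Pi.neg_apply, map_neg, Pi.zero_apply, neg_eq_zero]
    rw [Submodule.mkQ_apply]
    refine (Submodule.Quotient.mk_eq_zero _).2 ?_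
    unfold lk
    split_ifs
    · exact zero_mem _
    · exact zsmul_mem (hc _ v (mem_insert_self v T)) _
  obtain ⟨f', hf', hf0⟩ := base (G := G) (A := Lk G univ v) (i := i) (by rw [hcoe]; exact hK) (M ⧸ N v) _ hQ hQ0
  have hl : ∀ T, ∃ m : M, (N v).mkQ m = f' T ∧ m ∈ cap N T ∧ (f' T = 0 → m = 0) := by
    intro T
    by_cases h0 : f' T = 0
    · exact ⟨0, by rw [h0, map_zero], zero_mem _, fun _ => rfl⟩
    · obtain ⟨a1, a2, a3⟩ := hf'.supp T h0
      have hadj : ∀ w ∈ T, G.Adj v w := fun w hw => (mem_Lk.1 (a2 hw)).2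
      have hvT : v ∉ T := fun h => G.loopless.irrefl v (hadj v h)
      obtain ⟨m, hm⟩ := (N v).mkQ_surjective (f' T)
      have h2 : m ∈ cap N T ⊔ N v := by
        rw [cap_sup hD hN hvT hadj a1]
        exact Submodule.mem_top
      obtain ⟨x, hx, y, hy, rfl⟩ := Submodule.mem_sup.1 h2
      refine ⟨x, ?_, hx, fun h => absurd h h0⟩
      rw [← hm, map_add]
      have h5 : (N v).mkQ y = 0 := by
        rw [Submodule.mkQ_apply]
        exact (Submodule.Quotient.mk_eq_zero _).2 hy
      rw [h5, add_zero]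
  choose f hf1 hf2 hf3 using hl
  refine ⟨f, ⟨fun T hT => hf'.supp T fun h => hT (hf3 T h), fun T w hw => mem_cap.1 (hf2 T) w hw⟩, fun T => ?_⟩
  have h6 : (N v).mkQ (bd ℝ f T - lk v e T) = 0 := by
    rw [map_sub, ← mkQ_bd]
    have h7 : (fun T => (N v).mkQ (f T)) = f' := funext hf1
    rw [h7, hf0, sub_self]
  rw [Submodule.mkQ_apply] at h6
  exact (Submodule.Quotient.mk_eq_zero _).1 h6

/-- **ALG** -/
theorem t_ALG : ∀ (V : Type) [Fintype V] [LinearOrder V] (G : SimpleGraph V) (M : Type) [AddCommGroup M]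
    [Module ℝ M] (N : V → Submodule ℝ M) (i : ℕ), Dis G univ N → (∀ v w, G.Adj v w → N v ⊔ N w = ⊤) →
    HomZero G Set.univ i → (∀ v, N v = ⊤ ∨ HomZero G {w | G.Adj v w} i) → Ex G univ N i := by
  classical
  intro V _ _ G M _ _ N i hD hN hL hK c hc hc0
  obtain ⟨e, he, he0⟩ := base (G := G) (A := univ) (i := i) (by rw [coe_univ]; exact hL) M c
    (hc.mono subset_rfl fun _ _ => le_top) hc0
  choose f hf hfm using fun v => link_fill hD hN (fun T v hv => hc.mem T v hv) he he0 v (hK v)
  have hself : ∀ v, v ∉ Lk G univ v := fun v h => G.loopless.irrefl v (mem_Lk.1 h).2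
  have htop : ∀ v, Ch G univ (fun _ => (⊤ : Submodule ℝ M)) (i + 1) (bd ℝ (cone v (f v))) := fun v =>
    (Ch.cone (mem_univ v) ((hf v).mono subset_rfl fun _ _ => le_top) fun _ => Submodule.mem_top).bd
  refine ⟨e + ∑ v, bd ℝ (cone v (f v)), ⟨fun T hT => ?_, fun T w hw => ?_⟩, ?_⟩
  · rw [Pi.add_apply, Finset.sum_apply] at hT
    by_cases h0 : e T = 0
    · rw [h0, zero_add] at hT
      obtain ⟨v, _, hv⟩ := exists_ne_zero_of_sum_ne_zero hT
      exact (htop v).supp T hv
    · exact he.supp T h0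
  · rw [Pi.add_apply, Finset.sum_apply, ← add_sum_erase univ _ (mem_univ w), ← add_assoc]
    refine Submodule.add_mem _ ?_ (Submodule.sum_mem _ fun v hv => ?_)
    · have hoff : Off w (f w) := (hf w).offOf (hself w)
      rw [bd_cone hoff, Pi.sub_apply, hoff T hw, zero_sub]
      have h1 : cone w (bd ℝ (f w)) T = sg w (T.erase w) • bd ℝ (f w) (T.erase w) := if_pos hw
      have h2 : e T = sg w (T.erase w) • lk w e (T.erase w) := by
        unfold lk
        rw [if_neg (notMem_erase w T), smul_smul, sg_mul_self, one_smul, insert_erase hw]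
      rw [h1, h2]
      have h3 := zsmul_mem (hfm w (T.erase w)) (sg w (T.erase w))
      rw [smul_sub] at h3
      have h4 := (N w).neg_mem h3
      have h5 : sg w (T.erase w) • lk w e (T.erase w) + -(sg w (T.erase w) • bd ℝ (f w) (T.erase w)) =
          -(sg w (T.erase w) • bd ℝ (f w) (T.erase w) - sg w (T.erase w) • lk w e (T.erase w)) := by abel
      rw [h5]
      exact h4
    · have hvw : v ≠ w := ne_of_mem_erase hv
      rw [bd_apply]
      refine Submodule.sum_mem _ fun u _ => zsmul_mem ?_ _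
      unfold cone
      split_ifs
      · exact zsmul_mem ((hf v).mem _ w (mem_erase.2 ⟨fun h => hvw h.symm, mem_insert_of_mem hw⟩)) _
      · exact zero_mem _
  · rw [map_add, map_sum, he0]
    have : ∑ v, bd ℝ (bd ℝ (cone v (f v))) = 0 := sum_eq_zero fun v _ => bd_bd _
    rw [this, add_zero]

end Pool.Agent.V5helper12.BB
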